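import Pool.Agent.Helper43.CH5.Chain
import Pool.Agent.Helper94.RL.Field
import Pool.Agent.Helper43.V3.Defs

/-!
# The theorem on chains of Galois extensions, from the two group theorems
-/

set_option autoImplicit false
set_option linter.unusedSectionVars false

open NumberField

namespace Pool.Agent.Helper43.CH5

open Pool.Agent.Helper13.Ded Pool.Agent.Helper70.Art
open Pool.Agent.Helper94.Pr hiding HPC
open Pool.Agent.Helper3.AD
open Pool.Agent.Helper88.AS (PA Ser MainThm)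
open Pool.Agent.Helper43.V3 (FacP)
open Pool.Agent.Helper45.AS (trace_coset)
open Pool.Agent.Helper70.AQ (fix_inf)
open Pool.Agent.Helper90.EE (HPC)

section

variable {K N : Type} [Field K] [NumberField K] [Field N] [NumberField N] [Algebra K N]
  [IsGalois K N]

/-- the condition on one layer -/
def Lay (P : ∀ (X : Type) [Group X], Prop) (C : ℝ) (n : ℕ) (ε x y : ℝ)
    (E F : IntermediateField K N) [Normal K F] (a b : ℕ) : Prop :=
  (FacP P (E.fixingSubgroup.map (AlgEquiv.restrictNormalHom (F := K) (K₁ := N) F)) ∧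
    C * x * b ≤ a) ∨
  (Ser n (E.fixingSubgroup.map (AlgEquiv.restrictNormalHom (F := K) (K₁ := N) F)) ⊥ ∧
    ε * y * b ≤ a)

theorem bound_of {P : ∀ (X : Type) [Group X], Prop} {C : ℝ} {n : ℕ} {ε x y : ℝ}
    (hC : ∀ (G : Type) [Group G] [Finite G] (M : Subgroup G) [M.Normal], FacP P M →
      ∀ θ : G → ℂ, HPC θ → ∀ g : G, ‖θ g - PA M θ g‖ ≤ C * (θ 1 - PA M θ 1).re)
    (hn : ∀ (G : Type) [Group G] [Finite G] (M : Subgroup G) [M.Normal], Ser n M ⊥ →
      ∀ θ : G → ℂ, HPC θ → av (fun g => ‖θ g - PA M θ g‖ ^ 2) ≤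
        ε ^ 2 * ((θ 1 - PA M θ 1).re) ^ 2)
    (E F : IntermediateField K N) [IsGalois K E] [IsGalois K F] (hEF : E ≤ F) {a b : ℕ}
    (h : Lay P C n ε x y E F a b) (θ : (N ≃ₐ[K] N) → ℂ) (hθ : HPC θ) :
    Bound C ε x y E.fixingSubgroup F.fixingSubgroup θ a b := by
  have hπ : Function.Surjective (AlgEquiv.restrictNormalHom (F := K) (K₁ := N) F) :=
    AlgEquiv.restrictNormalHom_surjective N
  have hk : (AlgEquiv.restrictNormalHom (F := K) (K₁ := N) F).ker = F.fixingSubgroup :=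
    IntermediateField.restrictNormalHom_ker F
  have hle : (AlgEquiv.restrictNormalHom (F := K) (K₁ := N) F).ker ≤ E.fixingSubgroup := by
    rw [hk]
    exact IntermediateField.fixingSubgroup_antitone hEF
  have hN : (E.fixingSubgroup.map (AlgEquiv.restrictNormalHom (F := K) (K₁ := N) F)).Normal :=
    Subgroup.Normal.map inferInstance _ hπ
  rcases h with ⟨h1, h2⟩ | ⟨h1, h2⟩
  · left
    refine ⟨fun g => ?_, h2⟩
    have h3 := pt_pull _ hπ E.fixingSubgroup hle C (hC _ _ h1) θ hθ g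
    simpa only [hk] using h3
  · right
    refine ⟨?_, h2⟩
    have h3 := l2_pull _ hπ E.fixingSubgroup hle ε (hn _ _ h1) θ hθ
    simpa only [hk] using h3

theorem free_of (E F : IntermediateField K N) [IsGalois K E] [IsGalois K F] (hEF : E ≤ F)
    (h : Group.IsSolvable (E.fixingSubgroup.map (AlgEquiv.restrictNormalHom (F := K) (K₁ := N) F)))
    (H : Subgroup (N ≃ₐ[K] N)) (θ : (N ≃ₐ[K] N) → ℝ) (hθ : HP θ) :
    av (fun x : (H ⊔ E.fixingSubgroup : Subgroup (N ≃ₐ[K] N)) => θ x) ≤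
      av (fun x : (H ⊔ F.fixingSubgroup : Subgroup (N ≃ₐ[K] N)) => θ x) := by
  have hπ : Function.Surjective (AlgEquiv.restrictNormalHom (F := K) (K₁ := N) F) :=
    AlgEquiv.restrictNormalHom_surjective N
  have hk : (AlgEquiv.restrictNormalHom (F := K) (K₁ := N) F).ker = F.fixingSubgroup :=
    IntermediateField.restrictNormalHom_ker F
  have hle : (AlgEquiv.restrictNormalHom (F := K) (K₁ := N) F).ker ≤ E.fixingSubgroup := by
    rw [hk]
    exact IntermediateField.fixingSubgroup_antitone hEF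
  have h3 := Pool.Agent.Helper70.RL.layer_free _ hπ E.fixingSubgroup H hle h θ hθ
  rwa [hk] at h3

end

/-- **The theorem on chains.** -/
theorem chain_P {P : ℕ → ∀ (X : Type) [Group X], Prop} (h1 : MainThm)
    (h2 : ∀ B : ℕ, ∃ C : ℝ, 1 ≤ C ∧ ∀ (G : Type) [Group G] [Finite G] (M : Subgroup G) [M.Normal],
      FacP (P B) M → ∀ θ : G → ℂ, HPC θ → ∀ g : G, ‖θ g - PA M θ g‖ ≤ C * (θ 1 - PA M θ 1).re) :
    ∃ C : ℕ → ℕ, ∀ ε : ℝ, 0 < ε → ∃ n : ℕ, ∀ (B : ℕ) {K N : Type} [Field K] [NumberField K]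
      [Field N] [NumberField N] [Algebra K N] [IsGalois K N] (r : ℕ)
      (F : Fin (r + 1) → IntermediateField K N) [∀ i, IsGalois K (F i)], Monotone F →
      F (Fin.last r) = ⊤ → ∀ (a : Fin r → ℕ) (b : ℕ),
      (∀ {V W : Type} [AddCommGroup V] [Module ℂ V] [FiniteDimensional ℂ V]
        [AddCommGroup W] [Module ℂ W] [FiniteDimensional ℂ W]
        (ρ : Representation ℂ (N ≃ₐ[K] N) V) (τ : Representation ℂ (N ≃ₐ[K] N) W),
        (∀ v : V, (∀ g ∈ (F 0).fixingSubgroup, ρ g v = v) → v = 0) →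
        (∀ w : W, (∀ g ∈ (F 0).fixingSubgroup, τ g w = w) → w = 0) →
        (∀ i : Fin r, Lay (P B) (C B) n ε (dist2 ρ τ) (dist2 ρ τ) (F i.castSucc) (F i.succ)
          (a i) b) →
        ∃ g : ℂ → ℂ, Differentiable ℂ g ∧ ∀ s : ℂ, 1 < s.re →
          g s = (∏ i : Fin r, (dedekindZeta (F i.succ) s / dedekindZeta (F i.castSucc) s) ^ a i) *
            (artinFun ρ s / artinFun τ s) ^ b) ∧
      ∀ L : IntermediateField K N,
        ((∀ i : Fin r, Group.IsSolvable ((F i.castSucc).fixingSubgroup.map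
              (AlgEquiv.restrictNormalHom (F := K) (K₁ := N) (F i.succ))) ∨
            Lay (P B) (C B) n ε 1 (Real.sqrt (rank L.fixingSubgroup)) (F i.castSucc) (F i.succ)
              (a i) b) →
          ∃ g : ℂ → ℂ, Differentiable ℂ g ∧ ∀ s : ℂ, 1 < s.re →
            g s = (∏ i : Fin r,
                (dedekindZeta (F i.succ) s / dedekindZeta (F i.castSucc) s) ^ a i) *
              (dedekindZeta L s / dedekindZeta (L ⊓ F 0 : IntermediateField K N) s) ^ b) ∧
        ((∀ i : Fin r, Lay (P B) (C B) n ε 1 (Real.sqrt (rank L.fixingSubgroup)) (F i.castSucc)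
            (F i.succ) (a i) b) →
          ∃ g : ℂ → ℂ, Differentiable ℂ g ∧ ∀ s : ℂ, 1 < s.re →
            g s = (∏ i : Fin r,
                (dedekindZeta (F i.succ) s / dedekindZeta (F i.castSucc) s) ^ a i) *
              (dedekindZeta (L ⊓ F 0 : IntermediateField K N) s / dedekindZeta L s) ^ b) := by
  choose C hC1 hC using h2
  refine ⟨fun B => ⌈C B⌉₊, fun ε hε => ?_⟩
  obtain ⟨n, hn⟩ := h1 ε hε
  refine ⟨n, ?_⟩
  intro B K N _ _ _ _ _ _ r F _ hF hl a b
  have hCB : C B ≤ (⌈C B⌉₊ : ℕ) := Nat.le_ceil _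
  have hC' : ∀ (G : Type) [Group G] [Finite G] (M : Subgroup G) [M.Normal], FacP (P B) M →
      ∀ θ : G → ℂ, HPC θ → ∀ g : G, ‖θ g - PA M θ g‖ ≤ (⌈C B⌉₊ : ℕ) * (θ 1 - PA M θ 1).re := by
    intro G _ _ M _ hM θ hθ g
    have h3 := hC B G M hM θ hθ g
    have h4 : 0 ≤ (θ 1 - PA M θ 1).re := by
      have h5 := Pool.Agent.Helper20.CH.Mn.mono (⊥ : Subgroup G) hθ M bot_le
      rwa [PA_bot] at h5
    exact h3.trans (mul_le_mul_of_nonneg_right hCB h4)
  have hn' := hn n le_rfl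
  have hstep : ∀ i : Fin r, F i.castSucc ≤ F i.succ := fun i =>
    hF Fin.castSucc_lt_succ.le
  have hX : ∀ i : Fin r, (F i.succ).fixingSubgroup ≤ (F i.castSucc).fixingSubgroup := fun i =>
    IntermediateField.fixingSubgroup_antitone (hstep i)
  have hbot : (F (Fin.last r)).fixingSubgroup = ⊥ := by
    rw [hl]
    exact IntermediateField.fixingSubgroup_top
  have hcast : ∀ θ : (N ≃ₐ[K] N) → ℝ, HP θ → HPC (fun g => (θ g : ℂ)) := fun θ hθ =>
    ⟨fun g x => by rw [hθ.conj], fun g => by rw [hθ.inv, Complex.conj_ofReal], hθ.pos⟩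
  refine ⟨?_, fun L => ⟨?_, ?_⟩⟩
  · intro V W _ _ _ _ _ _ ρ τ hρ hτ h
    refine Pool.Agent.Helper94.RL.chain_rep (fun i : Fin r => F i.castSucc) (fun i => F i.succ)
      a ρ τ b fun θ hθ => ?_
    have hθ' : HPC θ := ⟨hθ.conj, hθ.inv, hθ.pos⟩
    have hψ : ∀ g : N ≃ₐ[K] N, ∑ᶠ m : (F 0).fixingSubgroup,
        (LinearMap.trace ℂ V (ρ (g * m)) - LinearMap.trace ℂ W (τ (g * m))) = 0 := fun g => by
      classical
      have := Fintype.ofFinite (F 0).fixingSubgroup
      have h1 := trace_coset ρ (F 0).fixingSubgroup hρ g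
      have h2 := trace_coset τ (F 0).fixingSubgroup hτ g
      rw [finsum_eq_sum_of_fintype] at h1 h2 ⊢
      rw [Finset.sum_sub_distrib, h1, h2, sub_zero]
    exact chain_rep (fun i => (F i).fixingSubgroup) (fun i => inferInstance) hX hbot _ ε hε θ hθ'
      (fun x => LinearMap.trace ℂ V (ρ x) - LinearMap.trace ℂ W (τ x)) hψ a b
      (fun i => bound_of hC' hn' (F i.castSucc) (F i.succ) (hstep i) (h i) θ hθ')
  · intro h
    refine Pool.Agent.Helper94.RL.chain_zeta (fun i : Fin r => F i.castSucc) (fun i => F i.succ)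
      a L (L ⊓ F 0) b fun θ hθ => ?_
    rw [fix_inf]
    refine chain_free (fun i => (F i).fixingSubgroup) (fun i => inferInstance) hX hbot
      ((⌈C B⌉₊ : ℕ) : ℝ) ε hε θ hθ L.fixingSubgroup a b fun i => ?_
    rcases h i with h3 | h3
    · exact Or.inl (free_of (F i.castSucc) (F i.succ) (hstep i) h3 _ θ hθ)
    · exact Or.inr (bound_of hC' hn' (F i.castSucc) (F i.succ) (hstep i) h3 _ (hcast θ hθ))
  · intro h
    refine Pool.Agent.Helper94.RL.chain_zeta (fun i : Fin r => F i.castSucc) (fun i => F i.succ)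
      a (L ⊓ F 0) L b fun θ hθ => ?_
    rw [fix_inf]
    exact chain_abs (fun i => (F i).fixingSubgroup) (fun i => inferInstance) hX hbot
      ((⌈C B⌉₊ : ℕ) : ℝ) ε hε θ hθ L.fixingSubgroup a b
      fun i => bound_of hC' hn' (F i.castSucc) (F i.succ) (hstep i) (h i) _ (hcast θ hθ)

end Pool.Agent.Helper43.CH5
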