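import Pool.Agent.Helper70.RL.Layer
import Pool.Agent.Helper20.CH.Main

/-!
# Chains of normal subgroups

The bounds of one layer, pulled back from the quotient, and the sum over the layers.
-/

set_option autoImplicit false
set_option linter.unusedSectionVars false

namespace Pool.Agent.Helper43.CH5

open Pool.Agent.Helper13.Ded Pool.Agent.Helper70.Art
open Pool.Agent.Helper94.Pr hiding HPC
open Pool.Agent.Helper3.AD
open Pool.Agent.Helper88.AS (PA)
open Pool.Agent.Helper90.EE (cav cav_eq_sum cav_re HPC)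
open Pool.Agent.Helper45.AS (PA_mul PA_one sum_coset_zero)
open Pool.Agent.Helper70.AQ (av_sup abs_av_le PA_class qm_perm)
open Pool.Agent.Helper20.CH.Mn (bar bar_mk bar_hpc PA_quo quo_one)

section pull

variable {G Q : Type} [Group G] [Finite G] [Group Q] [Finite Q]

lemma card_hom {A B : Type*} [Group A] [Finite A] [Group B] (r : A →* B)
    (hr : Function.Surjective r) : Nat.card A = Nat.card r.ker * Nat.card B := by
  have h6 := Subgroup.card_eq_card_quotient_mul_card_subgroup r.ker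
  have h7 := Nat.card_congr (QuotientGroup.quotientKerEquivOfSurjective r hr).toEquiv
  rw [h6, h7, mul_comm]

lemma cav_hom {A B : Type*} [Group A] [Finite A] [Group B] [Finite B] (r : A →* B)
    (hr : Function.Surjective r) (F : B → ℂ) : cav (fun a => F (r a)) = cav F := by
  classical
  have iA := Fintype.ofFinite A
  have iB := Fintype.ofFinite B
  have h1 := sum_comp_hom r hr F
  have h5 := card_hom r hr
  rw [cav_eq_sum, cav_eq_sum, h1, nsmul_eq_mul, ← Nat.card_eq_fintype_card,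
    ← Nat.card_eq_fintype_card, h5]
  have hk0 : (Nat.card r.ker : ℂ) ≠ 0 := by exact_mod_cast Nat.card_pos.ne'
  have hZ0 : (Nat.card B : ℂ) ≠ 0 := by exact_mod_cast Nat.card_pos.ne'
  push_cast
  field_simp

lemma av_hom {A B : Type*} [Group A] [Finite A] [Group B] [Finite B] (r : A →* B)
    (hr : Function.Surjective r) (F : B → ℝ) : av (fun a => F (r a)) = av F := by
  classical
  have iA := Fintype.ofFinite A
  have iB := Fintype.ofFinite B
  have h1 := sum_comp_hom r hr F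
  have h5 := card_hom r hr
  rw [av_eq_sum, av_eq_sum, h1, nsmul_eq_mul, ← Nat.card_eq_fintype_card,
    ← Nat.card_eq_fintype_card, h5]
  have hk0 : (Nat.card r.ker : ℝ) ≠ 0 := by exact_mod_cast Nat.card_pos.ne'
  have hZ0 : (Nat.card B : ℝ) ≠ 0 := by exact_mod_cast Nat.card_pos.ne'
  push_cast
  field_simp

/-- the function on the quotient -/
theorem pull (π : G →* Q) (hπ : Function.Surjective π) (X : Subgroup G) (hX : π.ker ≤ X)
    (θ : G → ℂ) (hθ : HPC θ) : ∃ η : Q → ℂ, HPC η ∧ (∀ g, η (π g) = PA π.ker θ g) ∧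
      ∀ g, PA (X.map π) η (π g) = PA X θ g := by
  classical
  let e : G ⧸ π.ker ≃* Q := QuotientGroup.quotientKerEquivOfSurjective π hπ
  have he : ∀ g, e.symm (π g) = QuotientGroup.mk' π.ker g := by
    intro g
    rw [MulEquiv.symm_apply_eq]
    rfl
  have h0 : ∀ g, (fun q : Q => bar π.ker θ (e.symm q)) (π g) = PA π.ker θ g := by
    intro g
    show bar π.ker θ (e.symm (π g)) = _
    rw [he, bar_mk]
  refine ⟨fun q => bar π.ker θ (e.symm q), (bar_hpc π.ker hθ).comp' e.symm.toMonoidHom, h0, ?_⟩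
  intro g
  have h1 := cav_hom (π.subgroupMap X) (π.subgroupMap_surjective X)
    (fun a : X.map π => bar π.ker θ (e.symm (π g * a)))
  have h2 := cav_hom ((QuotientGroup.mk' π.ker).subgroupMap X)
    ((QuotientGroup.mk' π.ker).subgroupMap_surjective X)
    (fun a : X.map (QuotientGroup.mk' π.ker) => bar π.ker θ (QuotientGroup.mk' π.ker g * a))
  have h3 := PA_quo π.ker θ X hX g
  unfold PA at h3 ⊢
  rw [← h1, ← h3, ← h2]
  congr 1
  funext x
  show bar π.ker θ (e.symm (π g * π x)) =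
    bar π.ker θ (QuotientGroup.mk' π.ker g * QuotientGroup.mk' π.ker x)
  rw [← map_mul, ← map_mul, he]

/-- the pointwise bound of one layer -/
theorem pt_pull (π : G →* Q) (hπ : Function.Surjective π) (X : Subgroup G) (hX : π.ker ≤ X)
    (C : ℝ) (hE : ∀ η : Q → ℂ, HPC η → ∀ x,
      ‖η x - PA (X.map π) η x‖ ≤ C * (η 1 - PA (X.map π) η 1).re) (θ : G → ℂ) (hθ : HPC θ) (g : G) :
    ‖PA π.ker θ g - PA X θ g‖ ≤ C * (PA π.ker θ 1 - PA X θ 1).re := by
  obtain ⟨η, h1, h2, h3⟩ := pull π hπ X hX θ hθ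
  have h4 := hE η h1 (π g)
  have h5 := h2 1
  have h6 := h3 1
  rw [map_one] at h5 h6
  rwa [h2, h3, h5, h6] at h4

/-- the bound of one layer in quadratic mean -/
theorem l2_pull (π : G →* Q) (hπ : Function.Surjective π) (X : Subgroup G) (hX : π.ker ≤ X)
    (ε : ℝ) (hE : ∀ η : Q → ℂ, HPC η → av (fun x => ‖η x - PA (X.map π) η x‖ ^ 2) ≤
      ε ^ 2 * ((η 1 - PA (X.map π) η 1).re) ^ 2) (θ : G → ℂ) (hθ : HPC θ) :
    av (fun g => ‖PA π.ker θ g - PA X θ g‖ ^ 2) ≤
      ε ^ 2 * ((PA π.ker θ 1 - PA X θ 1).re) ^ 2 := by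
  obtain ⟨η, h1, h2, h3⟩ := pull π hπ X hX θ hθ
  have h4 := hE η h1
  have h5 := h2 1
  have h6 := h3 1
  rw [map_one] at h5 h6
  rw [h5, h6, ← av_hom π hπ] at h4
  refine le_trans (le_of_eq ?_) h4
  congr 1
  funext g
  rw [h2, h3]

end pull

section grp

variable {G : Type} [Group G] [Finite G]

/-- telescoping -/
lemma tele {M : Type*} [AddCommGroup M] : ∀ (r : ℕ) (f : Fin (r + 1) → M),
    ∑ i : Fin r, (f i.succ - f i.castSucc) = f (Fin.last r) - f 0
  | 0, f => by simp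
  | r + 1, f => by
    rw [Fin.sum_univ_castSucc]
    have h1 := tele r (fun i => f i.castSucc)
    have h2 : ∑ i : Fin r, (f i.castSucc.succ - f i.castSucc.castSucc) =
        ∑ i : Fin r, ((fun i => f i.castSucc) i.succ - (fun i => f i.castSucc) i.castSucc) :=
      Finset.sum_congr rfl fun i _ => rfl
    rw [h2, h1]
    show f (Fin.last r).castSucc - f (0 : Fin (r + 1)).castSucc +
      (f (Fin.last r).succ - f (Fin.last r).castSucc) = f (Fin.last (r + 1)) - f 0
    rw [Fin.succ_last, Fin.castSucc_zero]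
    abel

lemma PA_bot (θ : G → ℂ) (g : G) : PA (⊥ : Subgroup G) θ g = θ g := by
  classical
  have iB := Fintype.ofFinite (⊥ : Subgroup G)
  unfold PA
  rw [cav_eq_sum, ← Nat.card_eq_fintype_card, Nat.card_unique]
  rw [Fintype.sum_unique]
  have : ((default : (⊥ : Subgroup G)) : G) = 1 := rfl
  rw [this, mul_one]
  simp

lemma mean_le' (ψ : G → ℂ) : av (fun x => ‖ψ x‖) ≤ qm ψ := by
  have h1 := cs_av (fun _ : G => (1 : ℝ)) (fun x => ‖ψ x‖) 1 (qm ψ) (qm_nonneg ψ) (by
    rw [one_pow, av_const]) zero_le_one (qm_sq ψ).le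
  simpa using h1

/-- The bound of the layer `Y ≤ X`: pointwise with `c`, or in quadratic mean with `ε`; `x` and `y` are the
factors. -/
def Bound (C ε x y : ℝ) (X Y : Subgroup G) (θ : G → ℂ) (a b : ℕ) : Prop :=
  ((∀ g, ‖PA Y θ g - PA X θ g‖ ≤ C * (PA Y θ 1 - PA X θ 1).re) ∧ C * x * b ≤ a) ∨
    (av (fun g => ‖PA Y θ g - PA X θ g‖ ^ 2) ≤ ε ^ 2 * ((PA Y θ 1 - PA X θ 1).re) ^ 2 ∧
      ε * y * b ≤ a)

lemma pos_layer {θ : G → ℂ} (hθ : HPC θ) (X Y : Subgroup G) [Y.Normal] (h : Y ≤ X) :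
    0 ≤ (PA Y θ 1 - PA X θ 1).re :=
  Pool.Agent.Helper20.CH.Mn.mono Y hθ X h

/-- one layer against a function -/
lemma layer_fun {C ε : ℝ} (hε : 0 < ε) {X Y : Subgroup G} [Y.Normal] (hXY : Y ≤ X) {θ : G → ℂ}
    (hθ : HPC θ) (ψ : G → ℂ) {a b : ℕ} (h : Bound C ε (qm ψ) (qm ψ) X Y θ a b) :
    -(a * (PA Y θ 1 - PA X θ 1).re) ≤ b * av (fun g => ((PA Y θ g - PA X θ g) * ψ g).re) := by
  have hD := pos_layer hθ X Y hXY
  have hb : (0 : ℝ) ≤ b := Nat.cast_nonneg _
  rcases h with ⟨h1, h2⟩ | ⟨h1, h2⟩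
  · set c : ℝ := C * (PA Y θ 1 - PA X θ 1).re with hc
    have hc0 : 0 ≤ c := (norm_nonneg _).trans (h1 1)
    have h3 : av (fun x => -(c * ‖ψ x‖)) ≤ av (fun x => ((PA Y θ x - PA X θ x) * ψ x).re) := by
      refine av_mono fun x => ?_
      have h4 := h1 x
      have h5 : |((PA Y θ x - PA X θ x) * ψ x).re| ≤ ‖PA Y θ x - PA X θ x‖ * ‖ψ x‖ := by
        rw [← norm_mul]
        exact Complex.abs_re_le_norm _
      have h6 := mul_le_mul_of_nonneg_right h4 (norm_nonneg (ψ x))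
      have h7 := (abs_le.1 h5).1
      linarith
    have h5 : av (fun x => -(c * ‖ψ x‖)) = -(c * av (fun x => ‖ψ x‖)) := by
      classical
      have iG := Fintype.ofFinite G
      rw [av_eq_sum (fun x => ‖ψ x‖), av_eq_sum (fun x => -(c * ‖ψ x‖)), Finset.sum_neg_distrib,
        ← Finset.mul_sum, neg_div, mul_div_assoc]
    rw [h5] at h3
    have h6 := mul_le_mul_of_nonneg_left (mean_le' ψ) hc0
    have h7 : -(c * qm ψ) ≤ av (fun x => ((PA Y θ x - PA X θ x) * ψ x).re) := by linarith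
    have h8 := mul_le_mul_of_nonneg_left h7 hb
    have h9 := mul_le_mul_of_nonneg_right h2 hD
    refine le_trans ?_ h8
    rw [hc]
    linarith
  · rw [← mul_pow] at h1
    have h3 := err_le (fun g => PA Y θ g - PA X θ g) ψ (ε * (PA Y θ 1 - PA X θ 1).re)
      (mul_nonneg hε.le hD) h1
    have h8 := mul_le_mul_of_nonneg_left h3 hb
    have h9 := mul_le_mul_of_nonneg_right h2 hD
    refine le_trans ?_ h8
    linarith

/-- **Chains, Artin `L`-functions.** -/
theorem chain_rep {r : ℕ} (X : Fin (r + 1) → Subgroup G) (hn : ∀ i, (X i).Normal)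
    (hX : ∀ i : Fin r, X i.succ ≤ X i.castSucc) (hl : X (Fin.last r) = ⊥) (C ε : ℝ) (hε : 0 < ε)
    (θ : G → ℂ) (hθ : HPC θ) (ψ : G → ℂ) (hψ : ∀ g : G, ∑ᶠ m : X 0, ψ (g * m) = 0)
    (a : Fin r → ℕ) (b : ℕ)
    (h : ∀ i : Fin r, Bound C ε (qm ψ) (qm ψ) (X i.castSucc) (X i.succ) θ (a i) b) :
    0 ≤ ∑ i : Fin r, (a i : ℝ) * (av (fun x : X i.succ => (θ x).re) -
        av (fun x : X i.castSucc => (θ x).re)) +
      b * av (fun x => (θ x * ψ x).re) := by
  classical
  have iG := Fintype.ofFinite G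
  have h2 : av (fun x => ((θ x - PA (X 0) θ x) * ψ x).re) = av (fun x => (θ x * ψ x).re) := by
    rw [av_eq_sum, av_eq_sum, ← Complex.re_sum, ← Complex.re_sum]
    congr 2
    have h3 := sum_coset_zero (X 0) (PA (X 0) θ) ψ (PA_mul (X 0) θ) hψ
    simp_rw [sub_mul]
    rw [Finset.sum_sub_distrib, h3, sub_zero]
  have h1 : av (fun x => ((θ x - PA (X 0) θ x) * ψ x).re) =
      ∑ i : Fin r, av (fun x => ((PA (X i.succ) θ x - PA (X i.castSucc) θ x) * ψ x).re) := by
    simp_rw [av_eq_sum]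
    rw [← Finset.sum_div, Finset.sum_comm]
    congr 1
    refine Finset.sum_congr rfl fun x _ => ?_
    rw [← Complex.re_sum, ← Finset.sum_mul, tele r (fun i => PA (X i) θ x), hl, PA_bot]
  rw [← h2, h1, Finset.mul_sum, ← Finset.sum_add_distrib]
  refine Finset.sum_nonneg fun i _ => ?_
  have h3 := layer_fun hε (hX i) hθ ψ (h i)
  rw [Complex.sub_re, PA_one, PA_one] at h3
  linarith

lemma av_sup_PA (Y H : Subgroup G) [Y.Normal] (θ : G → ℝ) :
    av (fun x : (H ⊔ Y : Subgroup G) => θ x) =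
      av (fun h : H => (PA Y (fun g => (θ g : ℂ)) h).re) := by
  rw [av_sup]
  congr 1
  funext h
  unfold PA
  rw [cav_re]
  rfl

/-- the average over a subgroup of a class function -/
lemma av_sub_class (H : Subgroup G) (f : G → ℂ) (hf : ∀ g x : G, f (x * g * x⁻¹) = f g) :
    av (fun h : H => (f h).re) =
      av (fun x => (f x * ind H (fun x => (((1 : H →* ℂˣ) x : ℂˣ) : ℂ)) x).re) := by
  classical
  have iG := Fintype.ofFinite G
  have iH := Fintype.ofFinite H
  have h1 := sum_ind H (1 : H →* ℂˣ) f hf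
  have h2 : (avC H (1 : H →* ℂˣ) f).re = av (fun h : H => (f h).re) := by
    unfold avC
    rw [finsum_eq_sum_of_fintype]
    simp only [MonoidHom.one_apply, Units.val_one, mul_one]
    rw [Nat.card_eq_fintype_card, ← Complex.ofReal_natCast, Complex.div_ofReal_re, av_eq_sum,
      Complex.re_sum]
  have hc : (Fintype.card G : ℝ) ≠ 0 := by exact_mod_cast Fintype.card_ne_zero
  rw [← h2, av_eq_sum (fun x => (f x * ind H (fun x => (((1 : H →* ℂˣ) x : ℂˣ) : ℂ)) x).re),
    ← Complex.re_sum, h1, ← Complex.ofReal_natCast, Complex.re_ofReal_mul,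
    mul_div_cancel_left₀ _ hc]

/-- one layer, the averages over `H X` and `H Y` -/
lemma layer_abs {C ε : ℝ} (hε : 0 < ε) {X Y : Subgroup G} [X.Normal] [Y.Normal] (hXY : Y ≤ X)
    {θ : G → ℝ} (hθ : HP θ) (H : Subgroup G) {a b : ℕ}
    (h : Bound C ε 1 (Real.sqrt (rank H)) X Y (fun g => (θ g : ℂ)) a b) :
    |av (fun x : (H ⊔ Y : Subgroup G) => θ x) - av (fun x : (H ⊔ X : Subgroup G) => θ x)| * b ≤
      a * (av (fun x : Y => θ x) - av (fun x : X => θ x)) := by
  classical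
  have iG := Fintype.ofFinite G
  have iH := Fintype.ofFinite H
  have hθ' : HPC (fun g => (θ g : ℂ)) :=
    ⟨fun g x => by rw [hθ.conj], fun g => by rw [hθ.inv, Complex.conj_ofReal], hθ.pos⟩
  have hD := pos_layer hθ' X Y hXY
  have hb : (0 : ℝ) ≤ b := Nat.cast_nonneg _
  have e1 : ∀ Z : Subgroup G, (PA Z (fun g => (θ g : ℂ)) 1).re = av (fun x : Z => θ x) := by
    intro Z
    rw [PA_one]
    rfl
  have e2 : av (fun x : (H ⊔ Y : Subgroup G) => θ x) - av (fun x : (H ⊔ X : Subgroup G) => θ x) =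
      av (fun x : H => (PA Y (fun g => (θ g : ℂ)) x - PA X (fun g => (θ g : ℂ)) x).re) := by
    rw [av_sup_PA, av_sup_PA, av_eq_sum, av_eq_sum, av_eq_sum, ← sub_div, ← Finset.sum_sub_distrib]
    rfl
  rw [e2]
  rw [Complex.sub_re, e1, e1] at hD
  have e3 : (PA Y (fun g => (θ g : ℂ)) 1 - PA X (fun g => (θ g : ℂ)) 1).re =
      av (fun x : Y => θ x) - av (fun x : X => θ x) := by
    rw [Complex.sub_re, e1, e1]
  rcases h with ⟨h1, h2⟩ | ⟨h1, h2⟩
  · rw [e3] at h1
    have h3 := abs_av_le (fun x : H => (PA Y (fun g => (θ g : ℂ)) x -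
      PA X (fun g => (θ g : ℂ)) x).re) _ fun x => (Complex.abs_re_le_norm _).trans (h1 x)
    have h8 := mul_le_mul_of_nonneg_right h3 hb
    have h9 := mul_le_mul_of_nonneg_right h2 hD
    refine h8.trans ?_
    linarith
  · have hcl : ∀ g x : G, (fun g : G => (θ g : ℂ)) (x * g * x⁻¹) = (fun g : G => (θ g : ℂ)) g :=
      fun g x => by
        show ((θ (x * g * x⁻¹) : ℝ) : ℂ) = θ g
        rw [hθ.conj]
    have h3 := av_sub_class H (fun g => PA Y (fun g => (θ g : ℂ)) g - PA X (fun g => (θ g : ℂ)) g)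
      (fun g x => by rw [PA_class X _ hcl, PA_class Y _ hcl])
    rw [h3]
    set ψ : G → ℂ := fun g => ind H (fun x => (((1 : H →* ℂˣ) x : ℂˣ) : ℂ)) g with hψ
    rw [← mul_pow, e3] at h1
    have hA := err_le (fun g => PA Y (fun g => (θ g : ℂ)) g - PA X (fun g => (θ g : ℂ)) g) ψ
      (ε * (av (fun x : Y => θ x) - av (fun x : X => θ x))) (mul_nonneg hε.le hD) h1
    have hB := err_le (fun g => -(PA Y (fun g => (θ g : ℂ)) g - PA X (fun g => (θ g : ℂ)) g)) ψ
      (ε * (av (fun x : Y => θ x) - av (fun x : X => θ x))) (mul_nonneg hε.le hD)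
      (by simpa only [norm_neg] using h1)
    have hneg : av (fun x => (-(PA Y (fun g => (θ g : ℂ)) x - PA X (fun g => (θ g : ℂ)) x) *
        ψ x).re) =
        - av (fun x => ((PA Y (fun g => (θ g : ℂ)) x - PA X (fun g => (θ g : ℂ)) x) * ψ x).re) := by
      rw [← av_neg]
      congr 1
      funext x
      rw [neg_mul, Complex.neg_re]
    rw [hneg, qm_perm] at hB
    rw [qm_perm] at hA
    have h4 : |av (fun x => ((PA Y (fun g => (θ g : ℂ)) x - PA X (fun g => (θ g : ℂ)) x) *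
        ψ x).re)| ≤ ε * (av (fun x : Y => θ x) - av (fun x : X => θ x)) * Real.sqrt (rank H) := by
      rw [abs_le]
      constructor <;> linarith
    have h8 := mul_le_mul_of_nonneg_right h4 hb
    have h9 := mul_le_mul_of_nonneg_right h2 hD
    refine h8.trans ?_
    linarith

/-- **Chains, zeta functions.** Every layer is bounded. -/
theorem chain_abs {r : ℕ} (X : Fin (r + 1) → Subgroup G) (hn : ∀ i, (X i).Normal)
    (hX : ∀ i : Fin r, X i.succ ≤ X i.castSucc) (hl : X (Fin.last r) = ⊥) (C ε : ℝ) (hε : 0 < ε)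
    (θ : G → ℝ) (hθ : HP θ) (H : Subgroup G) (a : Fin r → ℕ) (b : ℕ)
    (h : ∀ i : Fin r, Bound C ε 1 (Real.sqrt (rank H)) (X i.castSucc) (X i.succ)
      (fun g => (θ g : ℂ)) (a i) b) :
    0 ≤ ∑ i : Fin r, (a i : ℝ) * (av (fun x : X i.succ => θ x) -
        av (fun x : X i.castSucc => θ x)) +
      b * (av (fun x : (H ⊔ X 0 : Subgroup G) => θ x) - av (fun x : H => θ x)) := by
  have h1 : av (fun x : H => θ x) - av (fun x : (H ⊔ X 0 : Subgroup G) => θ x) =
      ∑ i : Fin r, (av (fun x : (H ⊔ X i.succ : Subgroup G) => θ x) -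
        av (fun x : (H ⊔ X i.castSucc : Subgroup G) => θ x)) := by
    rw [tele r (fun i => av (fun x : (H ⊔ X i : Subgroup G) => θ x)), hl, sup_bot_eq]
  have h2 : av (fun x : (H ⊔ X 0 : Subgroup G) => θ x) - av (fun x : H => θ x) =
      -∑ i : Fin r, (av (fun x : (H ⊔ X i.succ : Subgroup G) => θ x) -
        av (fun x : (H ⊔ X i.castSucc : Subgroup G) => θ x)) := by
    rw [← h1]
    ring
  rw [h2, mul_neg, Finset.mul_sum, ← Finset.sum_neg_distrib, ← Finset.sum_add_distrib]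
  refine Finset.sum_nonneg fun i _ => ?_
  have hb : (0 : ℝ) ≤ b := Nat.cast_nonneg _
  have h3 := layer_abs hε (hX i) hθ H (h i)
  have h4 := mul_le_mul_of_nonneg_right (le_abs_self
    (av (fun x : (H ⊔ X i.succ : Subgroup G) => θ x) -
      av (fun x : (H ⊔ X i.castSucc : Subgroup G) => θ x))) hb
  linarith

/-- **Chains, zeta functions.** Every layer is free or bounded. -/
theorem chain_free {r : ℕ} (X : Fin (r + 1) → Subgroup G) (hn : ∀ i, (X i).Normal)
    (hX : ∀ i : Fin r, X i.succ ≤ X i.castSucc) (hl : X (Fin.last r) = ⊥) (C ε : ℝ) (hε : 0 < ε)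
    (θ : G → ℝ) (hθ : HP θ) (H : Subgroup G) (a : Fin r → ℕ) (b : ℕ)
    (h : ∀ i : Fin r, av (fun x : (H ⊔ X i.castSucc : Subgroup G) => θ x) ≤
        av (fun x : (H ⊔ X i.succ : Subgroup G) => θ x) ∨
      Bound C ε 1 (Real.sqrt (rank H)) (X i.castSucc) (X i.succ) (fun g => (θ g : ℂ)) (a i) b) :
    0 ≤ ∑ i : Fin r, (a i : ℝ) * (av (fun x : X i.succ => θ x) -
        av (fun x : X i.castSucc => θ x)) +
      b * (av (fun x : H => θ x) - av (fun x : (H ⊔ X 0 : Subgroup G) => θ x)) := by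
  have h1 : av (fun x : H => θ x) - av (fun x : (H ⊔ X 0 : Subgroup G) => θ x) =
      ∑ i : Fin r, (av (fun x : (H ⊔ X i.succ : Subgroup G) => θ x) -
        av (fun x : (H ⊔ X i.castSucc : Subgroup G) => θ x)) := by
    rw [tele r (fun i => av (fun x : (H ⊔ X i : Subgroup G) => θ x)), hl, sup_bot_eq]
  rw [h1, Finset.mul_sum, ← Finset.sum_add_distrib]
  refine Finset.sum_nonneg fun i _ => ?_
  have hb : (0 : ℝ) ≤ b := Nat.cast_nonneg _
  have hθ' : HPC (fun g => (θ g : ℂ)) :=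
    ⟨fun g x => by rw [hθ.conj], fun g => by rw [hθ.inv, Complex.conj_ofReal], hθ.pos⟩
  have hD := pos_layer hθ' (X i.castSucc) (X i.succ) (hX i)
  have e1 : ∀ Z : Subgroup G, (PA Z (fun g => (θ g : ℂ)) 1).re = av (fun x : Z => θ x) := by
    intro Z
    rw [PA_one]
    rfl
  rw [Complex.sub_re, e1, e1] at hD
  rcases h i with h2 | h2
  · have h3 : 0 ≤ (a i : ℝ) * (av (fun x : X i.succ => θ x) - av (fun x : X i.castSucc => θ x)) :=
      mul_nonneg (Nat.cast_nonneg _) hD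
    have h4 := mul_nonneg hb (sub_nonneg.2 h2)
    linarith
  · have h3 := layer_abs hε (hX i) hθ H h2
    have h4 := mul_le_mul_of_nonneg_right (neg_abs_le
      (av (fun x : (H ⊔ X i.succ : Subgroup G) => θ x) -
        av (fun x : (H ⊔ X i.castSucc : Subgroup G) => θ x))) hb
    linarith

end grp

end Pool.Agent.Helper43.CH5
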